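import Pool.Agent.Helper11.NH.Final
import Pool.Agent.Helper80.NH.Star2
import Pool.Agent.Helper33.N2.Half
import Pool.Agent.Helper33.N2.H160
import Pool.Agent.Helper33.N2.ArmHa
import Pool.Agent.Helper20.NH.ArmHb
import Pool.Agent.Helper63.NH.Arm

namespace H11ST
namespace NH

theorem st_star : ST_STAR :=
  star2 Pool.Agent.Helper33.N2.st_BASE Pool.Agent.Helper33.N2.baseH160 armB arm1 arm2 armT
    Pool.Agent.Helper33.N2.st_ARMHa armHb

/-- no three tripod points in the half disc -/
theorem noThree : KS.NoThree := no_three_all st_star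

/-- at most two branching points in the concentric disc of half the radius -/
theorem nloc_half {t : ℝ} (ht0 : 0 < t) (ht : t ≤ 1 / 2) : Nloc 2 t ≤ 2 :=
  nloc_two_all st_star ht0 ht

end NH
end H11ST
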