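import Pool.Agent.Helper11.NH.Sheet
import Pool.Agent.H11ST.Asm
open MeasureTheory Metric Set Filter Topology Real
open scoped ENNReal NNReal

namespace H11ST
namespace NH

theorem fam (hZ : NH_ZIG) {A S : Set (E 2)} {r : ℝ} (h : Setup A S r) {φ : ℝ} {s : Fin 3 → E 2}
    {v : Fin 5 → E 2} (I : InS S φ s v) (vup : ∀ i, ‖v i‖ ≤ 1) :
    ∃ K pp pm, Fam S φ v K pp pm := by
  have hv : ∀ i, v i ∈ S := fun i => I.sub (by
    refine Or.inr (mem_iUnion.2 ⟨i, ?_⟩)
    exact right_mem_segment ℝ _ _)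
  have H1 := fun i => hZ A S r h (v i) (φ + dl i) 1 (Or.inl rfl) (hv i) (vup i) (I.vend i)
  have H2 := fun i => hZ A S r h (v i) (φ + dl i) (-1) (Or.inr rfl) (hv i) (vup i) (I.vend i)
  choose P p hPc hPp hvP hpP hpn hPS hPb hPcone hPd using H1
  choose Q q hQc hQp hvQ hqQ hqn hQS hQb hQcone hQd using H2
  refine ⟨fun i => P i ∪ Q i, p, q, ?_⟩
  exact
    { comp := fun i => (hPc i).union (hQc i)
      conn := fun i => (hPp i).union (v i) (hvP i) (hvQ i) (hQp i)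
      sub := fun i => union_subset (hPS i) (hQS i)
      ball := fun i => union_subset (hPb i) (hQb i)
      vm := fun i => Or.inl (hvP i)
      ppm := fun i => Or.inl (hpP i)
      pmm := fun i => Or.inr (hqQ i)
      ppn := hpn
      pmn := hqn
      cone := fun i => union_subset_union (hPcone i) (hQcone i)
      ppc := fun i => hPcone i (hpP i)
      pmc := fun i => hQcone i (hqQ i)
      deg := fun i hi => by
        show P i ∪ Q i = {v i}
        rw [hPd i hi, hQd i hi, union_self] }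

/-- the assembly -/
theorem no_three (hCOUNT : NH_COUNT) (hTREE : NH_TREE) (hZIG : NH_ZIG) (hLEN : NH_LEN)
    (hDISJ : NH_DISJ) (hSUM : NH_SUM) (hORDER : NH_ORDER) (hSTAR : NH_STAR)
    {A S : Set (E 2)} {r : ℝ} (h : Setup A S r) {Y : Finset (E 2)} (hY : Y.card = 3)
    (hb : ∀ y ∈ Y, ‖y‖ < 1 / 2 ∧ ∃ u ε, Tri S y u ε) : False := by
  obtain ⟨ρ, h0, h1, h2, h3⟩ := hCOUNT A S r h Y hY hb
  obtain ⟨φ, s, a, v, c, G, I⟩ := hTREE A S r h Y hY hb ρ h0 h1 h2 h3
  obtain ⟨K, pp, pm, F⟩ := fam hZIG h I G.vup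
  have D := hDISJ A S r h φ s a v c G I K pp pm F
  obtain ⟨th, rr, X, ht, hl⟩ := hLEN φ s a v c G
  have O := hORDER φ s a v c G S K pp pm F D th rr X
  refine hSTAR th rr X.th6 ht X.r0 X.rlow (fun i => (O i).1) fun j => ?_
  rw [← hl]
  exact (hSUM A S r h φ s a v c G I K pp pm F D j).trans
    (Finset.sum_le_sum fun i _ => (O i).2)

theorem nloc_two (hSIM : NH_SIM) (hCOUNT : NH_COUNT) (hTREE : NH_TREE) (hZIG : NH_ZIG)
    (hLEN : NH_LEN) (hDISJ : NH_DISJ) (hSUM : NH_SUM) (hORDER : NH_ORDER) (hSTAR : NH_STAR)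
    {t : ℝ} (ht0 : 0 < t) (ht : t ≤ 1 / 2) : Nloc 2 t ≤ 2 := by
  refine Nloc_le (m := 2) fun A S x r hL Y hY hb hT => ?_
  by_contra hcon
  have hcard : 3 ≤ Y.card := by omega
  obtain ⟨Y0, hY0, hc0⟩ := Finset.exists_subset_card_eq hcard
  have hr := hL.rpos
  obtain ⟨A', S', r', Y', h, hcY, hb'⟩ := hSIM A S x r hL.adm hL.compact.isClosed Y0
    (by rw [← Finset.card_pos, hc0]; norm_num) (fun y hy => ⟨by
      refine ball_subset_ball ?_ (hb y (hY0 hy))
      exact mul_le_mul_of_nonneg_right ht hr.le, hT y (hY0 hy)⟩)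
  exact no_three hCOUNT hTREE hZIG hLEN hDISJ hSUM hORDER hSTAR h (hcY.trans hc0) hb'

end NH
end H11ST
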