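import Pool.Agent.Helper11.NH.Sheet
import Pool.Agent.Helper80.NH.Stm
import Pool.Agent.Helper35.NH.GAP
open MeasureTheory Metric Set Filter Topology Real
open scoped ENNReal NNReal

namespace H11ST
namespace NH

theorem Up_eq (th rr : Fin 5 → ℝ) (i : Fin 5) : Up th rr i = Uf (th i) (rr i) := rfl

theorem Um_eq (th rr : Fin 5 → ℝ) (i : Fin 5) : Um th rr i = Uf (-th i) (rr i) := by
  simp only [Um, UU, Uf, sub_neg_eq_add]

theorem nh_arm {th rr : Fin 5 → ℝ} (i : Fin 5) (h6 : |th i| ≤ π / 6) (h0 : 0 ≤ rr i)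
    (hr : rr i ≤ cos (th i) - √(1 / 4 - sin (th i) ^ 2)) :
    Arm (th i) (rr i) (Up th rr i) (Um th rr i) := by
  rw [Up_eq, Um_eq]
  exact arm_Uf h6 h0 (hr.trans (by have := Real.sqrt_nonneg (1 / 4 - sin (th i) ^ 2); linarith))

theorem nh_star (h : ST_STAR) : NH_STAR := by
  intro th rr h6 hs h0 hr hg hall
  have hB : Box (-th 2) (th 3) (th 1) (-th 4) (th 0) := by
    refine ⟨by rw [abs_neg]; exact h6 2, h6 3, h6 1, by rw [abs_neg]; exact h6 4, h6 0, ?_⟩
    simp only [Fin.sum_univ_five] at hs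
    rw [sin_neg, sin_neg]
    linarith
  have a0 := nh_arm 0 (h6 0) (h0 0) (hr 0)
  have a1 := nh_arm 1 (h6 1) (h0 1) (hr 1)
  have a2 := nh_arm 2 (h6 2) (h0 2) (hr 2)
  have a3 := nh_arm 3 (h6 3) (h0 3) (hr 3)
  have a4 := nh_arm 4 (h6 4) (h0 4) (hr 4)
  have g0 := hg 0
  have g1 := hg 1
  have g2 := hg 2
  have g3 := hg 3
  have g4 := hg 4
  have i4 : (4 : Fin 5) + 1 = 0 := rfl
  have i0 : (0 : Fin 5) + 1 = 1 := rfl
  have i1 : (1 : Fin 5) + 1 = 2 := rfl
  have i2 : (2 : Fin 5) + 1 = 3 := rfl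
  have i3 : (3 : Fin 5) + 1 = 4 := rfl
  have e0 : gap th 0 = π / 3 + th 1 - th 0 := rfl
  have e1 : gap th 1 = 2 * π / 3 + th 2 - th 1 := rfl
  have e2 : gap th 2 = th 3 - th 2 := rfl
  have e3 : gap th 3 = 2 * π / 3 + th 4 - th 3 := rfl
  have e4 : gap th 4 = π / 3 + th 0 - th 4 := rfl
  rw [i0, e0] at g0
  rw [i1, e1] at g1
  rw [i2, e2] at g2
  rw [i3, e3] at g3
  rw [i4, e4] at g4
  have hch : ∀ i, chd th rr i = ch (gap th i - Up th rr i - Um th rr (i + 1)) := fun i => rfl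
  have c0 := hch 0
  have c1 := hch 1
  have c2 := hch 2
  have c3 := hch 3
  have c4 := hch 4
  rw [i0, e0] at c0
  rw [i1, e1] at c1
  rw [i2, e2] at c2
  rw [i3, e3] at c3
  rw [i4, e4] at c4
  refine h (-th 2) (th 3) (th 1) (-th 4) (th 0) hB (rr 0) (rr 1) (rr 2) (rr 3) (rr 4)
    (Up th rr 0) (Um th rr 0) (Up th rr 1) (Um th rr 1) (Up th rr 2) (Um th rr 2)
    (Up th rr 3) (Um th rr 3) (Up th rr 4) (Um th rr 4) a0 a1 (by rw [neg_neg]; exact a2) a3
    (by rw [neg_neg]; exact a4) (hr 0) (by linarith) (by linarith) (by linarith) (by linarith)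
    (by linarith) (chd th rr 2) (chd th rr 1) (chd th rr 0) (chd th rr 4) (chd th rr 3)
    (∑ i, cos (th i) - ∑ i, rr i) ?_ ?_ ?_ ?_ ?_ ?_ ?_
  · simp only [Fin.sum_univ_five, cos_neg]; ring
  · rw [c2]; congr 1; ring
  · rw [c1]; congr 1; ring
  · rw [c0]
  · rw [c4]; congr 1; ring
  · rw [c3]; congr 1; ring
  · have s : ∀ j : Fin 5, ∑ i ∈ Finset.univ.erase j, chd th rr i =
        ∑ i, chd th rr i - chd th rr j := fun j => by
      rw [← Finset.add_sum_erase Finset.univ _ (Finset.mem_univ j)]; ring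
    have H := fun j => hall j
    simp only [s, Fin.sum_univ_five] at H
    simp only [Fin.sum_univ_five]
    have k0 := H 0
    have k1 := H 1
    have k2 := H 2
    have k3 := H 3
    have k4 := H 4
    refine ⟨by linarith, by linarith, by linarith, by linarith, by linarith⟩

end NH
end H11ST
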