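import Pool.Agent.H11ST.St3
import Pool.Agent.Helper94.PU.Sheet
import Pool.Agent.Helper35.NH.CROSS
open MeasureTheory Metric Set Filter Topology Real
open scoped ENNReal NNReal

/-!
# NH: at most two branching points in the half disc (`Nloc 2 t ≤ 2` for `t ≤ 1 / 2`)

Normalisation: the set is locally minimal in the disc `ball 0 r`, `r > 1`, and everything happens in
the closed unit disc; three tripod points of norm `< 1 / 2`. The tree: `s 0` joined to `s 1`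
(direction `φ + 120°`) and `s 2` (direction `φ - 120°`); five arms, counterclockwise
`0 = T` (from `s 0`, `φ`), `1 = R` (`s 1`, `φ + 60°`), `2 = B₂` (`s 1`, `φ + 180°`),
`3 = B₁` (`s 2`, `φ + 180°`), `4 = L` (`s 2`, `φ + 300°`); arm `i` ends in `v i`, which is a tripod
point or a point of the unit circle. The line of arm `i` leaves the disc in `ev (φ + dl i + th i)`,
at the distance `rr i` behind `v i`.
-/

namespace H11ST
namespace NH

/-- standing hypotheses: `S` is locally minimal in a disc larger than the unit disc -/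
structure Setup (A S : Set (E 2)) (r : ℝ) : Prop where
  L : LocAdm A S 0 r
  cl : IsClosed A
  r1 : 1 < r
  reg : ∀ z ∈ S ∩ ball 0 r, (∃ u ε, Lin S z u ε) ∨ ∃ u ε, Tri S z u ε

/-- directions of the five arms (relative to `φ`) -/
noncomputable def dl : Fin 5 → ℝ := ![0, π / 3, π, π, 5 * π / 3]

/-- feet of the five arms -/
def ft : Fin 5 → Fin 3 := ![0, 1, 1, 2, 2]

/-- direction vector of an arm -/
noncomputable def dv (φ : ℝ) (i : Fin 5) : E 2 := ev (φ + dl i)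

/-- the tree -/
def tree (s : Fin 3 → E 2) (v : Fin 5 → E 2) : Set (E 2) :=
  segment ℝ (s 0) (s 1) ∪ segment ℝ (s 0) (s 2) ∪ ⋃ i, segment ℝ (s (ft i)) (v i)

/-- the tree without the arm `i` (its foot belongs to it) -/
def rest (s : Fin 3 → E 2) (v : Fin 5 → E 2) (i : Fin 5) : Set (E 2) :=
  segment ℝ (s 0) (s 1) ∪ segment ℝ (s 0) (s 2) ∪ ⋃ j ∈ {j | j ≠ i}, segment ℝ (s (ft j)) (v j)

/-- the geometry of the tree -/
structure Geo (φ : ℝ) (s : Fin 3 → E 2) (a : Fin 2 → ℝ) (v : Fin 5 → E 2) (c : Fin 5 → ℝ) :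
    Prop where
  apos : ∀ k, 0 < a k
  s1 : s 1 = s 0 + a 0 • ev (φ + 2 * π / 3)
  s2 : s 2 = s 0 + a 1 • ev (φ - 2 * π / 3)
  sn : ∀ k, ‖s k‖ < 1 / 2
  cpos : ∀ i, 0 < c i
  vd : ∀ i, v i = s (ft i) + c i • dv φ i
  vlow : ∀ i, 1 / 2 ≤ ‖v i‖
  vup : ∀ i, ‖v i‖ ≤ 1

/-- the tree is a part of `S`, open in `S` except for the ends of the arms -/
structure InS (S : Set (E 2)) (φ : ℝ) (s : Fin 3 → E 2) (v : Fin 5 → E 2) : Prop where
  sub : tree s v ⊆ S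
  loc : ∀ z ∈ tree s v, (∀ i, z ≠ v i) → ∃ ε > 0, S ∩ ball z ε ⊆ tree s v
  vend : ∀ i, ‖v i‖ = 1 ∨ ∃ u ε, Tri S (v i) u ε ∧ ∃ j, u j = -dv φ i

/-- the cone at `v` of the directions between `β + σ 60°` and `β + σ 120°` -/
def cone (v : E 2) (β σ : ℝ) : Set (E 2) :=
  {w | ∃ p q : ℝ, 0 ≤ p ∧ 0 ≤ q ∧
    w = v + p • ev (β + σ * (π / 3)) + q • ev (β + σ * (2 * π / 3))}

/-- connected pieces of `S` behind the ends of the arms, with two exits each -/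
structure Fam (S : Set (E 2)) (φ : ℝ) (v : Fin 5 → E 2) (K : Fin 5 → Set (E 2))
    (pp pm : Fin 5 → E 2) : Prop where
  comp : ∀ i, IsCompact (K i)
  conn : ∀ i, IsPreconnected (K i)
  sub : ∀ i, K i ⊆ S
  ball : ∀ i, K i ⊆ closedBall 0 1
  vm : ∀ i, v i ∈ K i
  ppm : ∀ i, pp i ∈ K i
  pmm : ∀ i, pm i ∈ K i
  ppn : ∀ i, ‖pp i‖ = 1
  pmn : ∀ i, ‖pm i‖ = 1
  cone : ∀ i, K i ⊆ cone (v i) (φ + dl i) 1 ∪ cone (v i) (φ + dl i) (-1)
  ppc : ∀ i, pp i ∈ NH.cone (v i) (φ + dl i) 1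
  pmc : ∀ i, pm i ∈ NH.cone (v i) (φ + dl i) (-1)
  deg : ∀ i, ‖v i‖ = 1 → K i = {v i}

/-- the pieces are disjoint from each other, and they meet the tree only in the ends of the arms -/
structure Dj (s : Fin 3 → E 2) (v : Fin 5 → E 2) (K : Fin 5 → Set (E 2)) : Prop where
  tree : ∀ i, K i ∩ tree s v ⊆ {v i}
  pair : ∀ i j, i ≠ j → Disjoint (K i) (K j)

/-- the exits of the straight prolongations of the arms -/
structure Ex (φ : ℝ) (v : Fin 5 → E 2) (th rr : Fin 5 → ℝ) : Prop where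
  th6 : ∀ i, |th i| ≤ π / 6
  r0 : ∀ i, 0 ≤ rr i
  rv : ∀ i, v i + rr i • dv φ i = ev (φ + dl i + th i)
  rlow : ∀ i, rr i ≤ cos (th i) - √(1 / 4 - sin (th i) ^ 2)

/-- angle between the straight exit and the exit of a straight child; `b = π / 3 ∓ th` -/
noncomputable def UU (b r : ℝ) : ℝ := b - arcsin (sin b - √3 / 2 * r)
/-- the child on the left (counterclockwise) -/
noncomputable def Up (th rr : Fin 5 → ℝ) (i : Fin 5) : ℝ := UU (π / 3 - th i) (rr i)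
/-- the child on the right -/
noncomputable def Um (th rr : Fin 5 → ℝ) (i : Fin 5) : ℝ := UU (π / 3 + th i) (rr i)

/-- the gap between the straight exits of the arms `i` and `i + 1` -/
noncomputable def gap (th : Fin 5 → ℝ) : Fin 5 → ℝ :=
  ![π / 3 + th 1 - th 0, 2 * π / 3 + th 2 - th 1, th 3 - th 2, 2 * π / 3 + th 4 - th 3,
    π / 3 + th 0 - th 4]

/-- the chord of the gap `i` -/
noncomputable def chd (th rr : Fin 5 → ℝ) (i : Fin 5) : ℝ :=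
  2 * sin ((gap th i - Up th rr i - Um th rr (i + 1)) / 2)

/-! ## The rows -/

/-- (SIM) scaling. Take `R < r` with the points in `ball x (R / 2)`, `f z = (1 / R) • (z - x)` -/
def NH_SIM : Prop := ∀ (A S : Set (E 2)) (x : E 2) (r : ℝ), LocAdm A S x r → IsClosed A →
  ∀ Y : Finset (E 2), Y.Nonempty → (∀ y ∈ Y, y ∈ ball x (1 / 2 * r) ∧ ∃ u ε, Tri S y u ε) →
  ∃ (A' S' : Set (E 2)) (r' : ℝ) (Y' : Finset (E 2)), Setup A' S' r' ∧ Y'.card = Y.card ∧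
    ∀ y ∈ Y', ‖y‖ < 1 / 2 ∧ ∃ u ε, Tri S' y u ε

/-- (COUNT) some circle of radius `ρ ∈ (1 / 2, 1)` without tripod points meets `S` in at most five
points: otherwise (`Ph.ph_4a : ST_PH 4 (3 / 4) (503 / 1000)`, `flux_one`, GI) -/
def NH_COUNT : Prop := ∀ (A S : Set (E 2)) (r : ℝ), Setup A S r →
  ∀ Y : Finset (E 2), Y.card = 3 → (∀ y ∈ Y, ‖y‖ < 1 / 2 ∧ ∃ u ε, Tri S y u ε) →
  ∃ ρ : ℝ, 1 / 2 < ρ ∧ ρ < 1 ∧ (S ∩ sphere 0 ρ).encard ≤ 5 ∧
    ∀ z ∈ sphere (0 : E 2) ρ, ¬ ∃ u ε, Tri S z u ε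

/-- (TREE) the tree. No other tripod point in `ball 0 ρ` (`sphere_count`). Follow the nine arms of
the three tripod points to the first tripod point or the unit circle: an arm which does not end in
one of the three points crosses `sphere 0 ρ` in one point, different arms in different points, so at
least four arms end in tripod points of `Y`; three mutually joined points are impossible (angles),
so exactly two edges, `s 0` = the middle one, and five arms -/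
def NH_TREE : Prop := ∀ (A S : Set (E 2)) (r : ℝ), Setup A S r →
  ∀ Y : Finset (E 2), Y.card = 3 → (∀ y ∈ Y, ‖y‖ < 1 / 2 ∧ ∃ u ε, Tri S y u ε) →
  ∀ ρ : ℝ, 1 / 2 < ρ → ρ < 1 → (S ∩ sphere 0 ρ).encard ≤ 5 →
  (∀ z ∈ sphere (0 : E 2) ρ, ¬ ∃ u ε, Tri S z u ε) →
  ∃ φ s a v c, Geo φ s a v c ∧ InS S φ s v

/-- (ZIG) the zigzag path from the end `v` of an arm of direction `β`: first in the direction
`β + σ 60°`, then, at each tripod point, alternately `β + σ 120°` and `β + σ 60°`, up to the unit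
circle (finitely many tripod points; `inner · (ev (β + σ 90°))` increases). If `‖v‖ = 1` : `P = {v}` -/
def NH_ZIG : Prop := ∀ (A S : Set (E 2)) (r : ℝ), Setup A S r → ∀ (v : E 2) (β σ : ℝ),
  (σ = 1 ∨ σ = -1) → v ∈ S → ‖v‖ ≤ 1 → (‖v‖ = 1 ∨ ∃ u ε, Tri S v u ε ∧ ∃ j, u j = -ev β) →
  ∃ (P : Set (E 2)) (p : E 2), IsCompact P ∧ IsPreconnected P ∧ v ∈ P ∧ p ∈ P ∧ ‖p‖ = 1 ∧
    P ⊆ S ∧ P ⊆ closedBall 0 1 ∧ P ⊆ cone v β σ ∧ (‖v‖ = 1 → P = {v})

/-- (EXCH) exchange: `S' = (S \ (T \ V)) ∪ F`; `S' ∪ A` is connected, since `F ∪ K` is connected and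
contains `V`. (`F = ∅`, `V = {a, b}`, `T = segment a b`: every edge is a bridge.) -/
def NH_EXCH : Prop := ∀ (A S : Set (E 2)) (r : ℝ), LocAdm A S 0 r → IsClosed A →
  ∀ (T F K : Set (E 2)) (V : Finset (E 2)), IsCompact T → IsPreconnected T → T ⊆ S →
  T ⊆ ball 0 r → V.Nonempty → (∀ z ∈ V, z ∈ T) →
  (∀ z ∈ T, z ∉ V → ∃ ε > 0, S ∩ ball z ε ⊆ T) →
  IsCompact F → F ⊆ ball 0 r → K ⊆ S → (∀ z ∈ K, z ∈ T → z ∈ V) → IsPreconnected (F ∪ K) →
  (∀ z ∈ V, z ∈ F ∪ K) → μH[1] T ≤ μH[1] F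

/-- (GEO) plane geometry of the tree -/
def NH_GEO : Prop := ∀ (φ : ℝ) (s : Fin 3 → E 2) (a : Fin 2 → ℝ) (v : Fin 5 → E 2) (c : Fin 5 → ℝ),
  Geo φ s a v c →
  IsCompact (tree s v) ∧ IsPreconnected (tree s v) ∧ tree s v ⊆ closedBall 0 1 ∧
  (∀ i, tree s v = rest s v i ∪ segment ℝ (s (ft i)) (v i)) ∧
  (∀ i, IsCompact (rest s v i) ∧ IsPreconnected (rest s v i) ∧ (∀ k, s k ∈ rest s v i) ∧
    (∀ j, j ≠ i → v j ∈ rest s v i) ∧
    rest s v i ∩ segment ℝ (s (ft i)) (v i) ⊆ {s (ft i)})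

/-- (MEAS) the length of the tree (the seven segments meet only in common end points) -/
def NH_MEAS : Prop := ∀ (φ : ℝ) (s : Fin 3 → E 2) (a : Fin 2 → ℝ) (v : Fin 5 → E 2) (c : Fin 5 → ℝ),
  Geo φ s a v c → μH[1] (tree s v) = ENNReal.ofReal (a 0 + a 1 + ∑ i, c i)

/-- (LEN) the exits: balance of the torques, and the length -/
def NH_LEN : Prop := ∀ (φ : ℝ) (s : Fin 3 → E 2) (a : Fin 2 → ℝ) (v : Fin 5 → E 2) (c : Fin 5 → ℝ),
  Geo φ s a v c → ∃ th rr, Ex φ v th rr ∧ ∑ i, sin (th i) = 0 ∧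
    a 0 + a 1 + ∑ i, c i = ∑ i, cos (th i) - ∑ i, rr i

/-- (DISJ) by EXCH with `T` = the arm `i`, `V = {s (ft i), v i}`, `F = ∅`,
`K = K i ∪ rest s v i`, and then `K = K i ∪ K j ∪ rest s v i` -/
def NH_DISJ : Prop := ∀ (A S : Set (E 2)) (r : ℝ), Setup A S r →
  ∀ (φ : ℝ) (s : Fin 3 → E 2) (a : Fin 2 → ℝ) (v : Fin 5 → E 2) (c : Fin 5 → ℝ),
  Geo φ s a v c → InS S φ s v → ∀ (K : Fin 5 → Set (E 2)) (pp pm : Fin 5 → E 2),
  Fam S φ v K pp pm → Dj s v K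

/-- (SUM) by EXCH with `T = tree s v`, `V = {v i}`, `F` = the four segments, `K = ⋃ K i` -/
def NH_SUM : Prop := ∀ (A S : Set (E 2)) (r : ℝ), Setup A S r →
  ∀ (φ : ℝ) (s : Fin 3 → E 2) (a : Fin 2 → ℝ) (v : Fin 5 → E 2) (c : Fin 5 → ℝ),
  Geo φ s a v c → InS S φ s v → ∀ (K : Fin 5 → Set (E 2)) (pp pm : Fin 5 → E 2),
  Fam S φ v K pp pm → Dj s v K → ∀ j : Fin 5,
  a 0 + a 1 + ∑ i, c i ≤ ∑ i ∈ Finset.univ.erase j, dist (pp i) (pm (i + 1))

/-- (ORDER) by CROSS with `X = K i` and `Z = K j ∪ rest s v i ∪` the segment from `s (ft i)` to the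
backward exit of the line of arm `i` -/
def NH_ORDER : Prop := ∀ (φ : ℝ) (s : Fin 3 → E 2) (a : Fin 2 → ℝ) (v : Fin 5 → E 2)
  (c : Fin 5 → ℝ), Geo φ s a v c → ∀ (S : Set (E 2)) (K : Fin 5 → Set (E 2)) (pp pm : Fin 5 → E 2),
  Fam S φ v K pp pm → Dj s v K → ∀ th rr, Ex φ v th rr → ∀ i : Fin 5,
  Up th rr i + Um th rr (i + 1) ≤ gap th i ∧ dist (pp i) (pm (i + 1)) ≤ chd th rr i

/-- (STAR) the inequality -/
def NH_STAR : Prop := ∀ th rr : Fin 5 → ℝ, (∀ i, |th i| ≤ π / 6) → ∑ i, sin (th i) = 0 →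
  (∀ i, 0 ≤ rr i) → (∀ i, rr i ≤ cos (th i) - √(1 / 4 - sin (th i) ^ 2)) →
  (∀ i, Up th rr i + Um th rr (i + 1) ≤ gap th i) →
  ¬ ∀ j : Fin 5, ∑ i, cos (th i) - ∑ i, rr i ≤ ∑ i ∈ Finset.univ.erase j, chd th rr i

end NH
end H11ST
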