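import Pool.Agent.Helper11.NH.Asm
import Pool.Agent.Helper11.NH.StarB
import Pool.Agent.Helper63.NH.SIM
import Pool.Agent.Helper63.NH.SUM
import Pool.Agent.Helper63.NH.TreeG
import Pool.Agent.Helper49.NH.COUNT
import Pool.Agent.Helper73.NH.TREE
import Pool.Agent.Helper35.NH.ORD
import Pool.Agent.Helper94.NH.ZIG
import Pool.Agent.Helper95.NH.EXCH
import Pool.Agent.Helper72.NH.GEO
import Pool.Agent.Helper76.NH.LEN
import Pool.Agent.Helper27.NH.DISJ
import Pool.Agent.Helper11.KS.Sheet
open MeasureTheory Metric Set Filter Topology Real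
open scoped ENNReal NNReal

namespace H11ST
namespace NH

/-- no three tripod points in the half disc -/
theorem no_three_all (hSTAR : ST_STAR) : KS.NoThree := by
  intro A S x r L hA Y hY hb
  obtain ⟨A', S', r', Y', h, hcY, hb'⟩ := sim_row A S x r L hA Y
    (by rw [← Finset.card_pos, hY]; norm_num) hb
  exact no_three count tree_row zig Len76.nh_len (disj exch geo) (sum_row exch geo meas_row)
    (order geo) (nh_star hSTAR) h (hcY.trans hY) hb'

theorem nloc_two_all (hSTAR : ST_STAR) {t : ℝ} (ht0 : 0 < t) (ht : t ≤ 1 / 2) : Nloc 2 t ≤ 2 :=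
  nloc_two sim_row count tree_row zig Len76.nh_len (disj exch geo) (sum_row exch geo meas_row)
    (order geo) (nh_star hSTAR) ht0 ht

end NH
end H11ST
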